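import Mathlib

/-!
# Solution classes of `x² − (k²+1) y² = k²`

Definitions used by the hand-in on `MP_b40da5_nt`.
-/

set_option autoImplicit false

namespace Pool.Agent.Lib.MP_b40da5_nt

/-- The integer solutions `(x, y)` of `x² − (k²+1) y² = k²`. -/
def Sol (k : ℕ) : Type :=
  {p : ℤ × ℤ // p.1 ^ 2 - ((k : ℤ) ^ 2 + 1) * p.2 ^ 2 = (k : ℤ) ^ 2}

/-- Two solutions `x + y√d` and `x' + y'√d` (`d = k²+1`) are associated if
`x' + y'√d = (x + y√d)(u + v√d)` for some integers `u, v` with `u² − d v² = 1`. -/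
def Assoc (k : ℕ) (p q : Sol k) : Prop :=
  ∃ u v : ℤ, u ^ 2 - ((k : ℤ) ^ 2 + 1) * v ^ 2 = 1 ∧
    q.1.1 = p.1.1 * u + ((k : ℤ) ^ 2 + 1) * (p.1.2 * v) ∧
    q.1.2 = p.1.1 * v + p.1.2 * u

theorem assoc_equivalence (k : ℕ) : Equivalence (Assoc k) where
  refl p := ⟨1, 0, by ring, by ring, by ring⟩
  symm := by
    rintro p q ⟨u, v, h, h1, h2⟩
    refine ⟨u, -v, by linear_combination h, ?_, ?_⟩
    · rw [h1, h2]
      linear_combination (-p.1.1) * h
    · rw [h1, h2]
      linear_combination (-p.1.2) * h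
  trans := by
    rintro p q r ⟨u, v, h, h1, h2⟩ ⟨u', v', h', h1', h2'⟩
    refine ⟨u * u' + ((k : ℤ) ^ 2 + 1) * (v * v'), u * v' + v * u', ?_, ?_, ?_⟩
    · linear_combination (u' ^ 2 - ((k : ℤ) ^ 2 + 1) * v' ^ 2) * h + h'
    · rw [h1', h1, h2]
      ring
    · rw [h2', h1, h2]
      ring

/-- Association as a setoid; its equivalence classes are the classes of solutions. -/
def classSetoid (k : ℕ) : Setoid (Sol k) := ⟨Assoc k, assoc_equivalence k⟩

/-- The number of classes of solutions of `x² − (k²+1) y² = k²`. -/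
noncomputable def numClasses (k : ℕ) : ℕ := Nat.card (Quotient (classSetoid k))

/-- The odd primes dividing `k² + 1`. -/
def oddPrimes (k : ℕ) : Finset ℕ := (k ^ 2 + 1).primeFactors.erase 2

end Pool.Agent.Lib.MP_b40da5_nt
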