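import Mathlib
import Pool.Agent.Lib.MP_b40da5_nt.Defs

set_option autoImplicit false

namespace Pool.Agent.Lib.MP_b40da5_nt

/-! ### Sizes -/

/-- product bound -/
lemma prod_lt {k y X : ℤ} (hk : 2 ≤ k) (hy : 1 ≤ y) (hy' : y ≤ k - 1) (_hX : 1 ≤ X)
    (e : k ^ 2 + y ^ 2 - X ^ 2 = 2 * k * (X * y)) : X * y ≤ k - 1 := by
  by_contra hcon
  have h1 : k ≤ X * y := by omega
  nlinarith

lemma y_of_X_one {k y X : ℤ} (_hk : 2 ≤ k) (hy' : y ≤ k - 1)
    (e : k ^ 2 + y ^ 2 - X ^ 2 = 2 * k * (X * y)) (hX : X = 1) : y = k - 1 := by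
  subst hX
  have h : (k - y - 1) * (k - y + 1) = 0 := by nlinarith
  rcases mul_eq_zero.mp h with h | h
  · linarith
  · linarith

/-- `X ≤ k/2` -/
lemma two_X_le {k y X : ℤ} (hk : 2 ≤ k) (hy : 1 ≤ y) (hy' : y ≤ k - 1) (hX : 1 ≤ X)
    (e : k ^ 2 + y ^ 2 - X ^ 2 = 2 * k * (X * y)) : 2 * X ≤ k := by
  have h := prod_lt hk hy hy' hX e
  rcases eq_or_lt_of_le hX with h1 | h1
  · rw [← h1]; linarith
  · rcases eq_or_lt_of_le hy with h2 | h2
    · rw [← h2] at e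
      by_contra hcon
      have : k + 1 ≤ 2 * X := by omega
      nlinarith
    · nlinarith

/-- the key identity -/
lemma key_id {k y X : ℤ} (e : k ^ 2 + y ^ 2 - X ^ 2 = 2 * k * (X * y)) :
    (k * X - y) ^ 2 - 1 = (k ^ 2 + 1) * (X ^ 2 - 1) := by
  linear_combination e

lemma eq_of_n_eq {k y1 X1 y2 X2 : ℤ} (_hk : 2 ≤ k) (h1 : 1 ≤ y1) (h1' : y1 ≤ k - 1)
    (h2 : 1 ≤ y2) (h2' : y2 ≤ k - 1) (h : k * X1 - y1 = k * X2 - y2) : y1 = y2 := by
  have hd : k ∣ y1 - y2 := ⟨X1 - X2, by linear_combination -h⟩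
  have := Int.eq_zero_of_abs_lt_dvd hd (by rw [abs_lt]; constructor <;> linarith)
  linarith

/-- even case: modulus `k²+1` -/
lemma core_even {k y1 X1 y2 X2 : ℤ} (hk : 2 ≤ k)
    (h1 : 1 ≤ y1) (h1' : y1 ≤ k - 1) (hX1 : 1 ≤ X1)
    (e1 : k ^ 2 + y1 ^ 2 - X1 ^ 2 = 2 * k * (X1 * y1))
    (h2 : 1 ≤ y2) (h2' : y2 ≤ k - 1) (hX2 : 1 ≤ X2)
    (e2 : k ^ 2 + y2 ^ 2 - X2 ^ 2 = 2 * k * (X2 * y2)) :
    ((k ^ 2 + 1) ∣ (k * X1 - y1) - (k * X2 - y2) → y1 = y2) ∧
      ¬ (k ^ 2 + 1) ∣ (k * X1 - y1) + (k * X2 - y2) := by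
  have a1 := two_X_le hk h1 h1' hX1 e1
  have a2 := two_X_le hk h2 h2' hX2 e2
  have b1 : k * (2 * X1) ≤ k * k := by nlinarith
  have b2 : k * (2 * X2) ≤ k * k := by nlinarith
  have c1 : k ≤ k * X1 := by nlinarith
  have c2 : k ≤ k * X2 := by nlinarith
  constructor
  · intro hd
    have h := Int.eq_zero_of_abs_lt_dvd hd (by rw [abs_lt]; constructor <;> nlinarith)
    exact eq_of_n_eq (X1 := X1) (X2 := X2) hk h1 h1' h2 h2' (by linarith)
  · intro hd
    have h := Int.le_of_dvd (by nlinarith) hd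
    nlinarith

/-- odd case: modulus `(k²+1)/2` -/
lemma core_odd {k y1 X1 y2 X2 D : ℤ} (hk : 3 ≤ k) (hodd : k % 2 = 1) (hD : 2 * D = k ^ 2 + 1)
    (h1 : 1 ≤ y1) (h1' : y1 ≤ k - 1) (hX1 : 1 ≤ X1)
    (e1 : k ^ 2 + y1 ^ 2 - X1 ^ 2 = 2 * k * (X1 * y1))
    (h2 : 1 ≤ y2) (h2' : y2 ≤ k - 1) (hX2 : 1 ≤ X2)
    (e2 : k ^ 2 + y2 ^ 2 - X2 ^ 2 = 2 * k * (X2 * y2)) :
    (D ∣ (k * X1 - y1) - (k * X2 - y2) → y1 = y2) ∧
      ¬ D ∣ (k * X1 - y1) + (k * X2 - y2) := by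
  have hk2 : 2 ≤ k := by linarith
  have a1 : 2 * X1 ≤ k - 1 := by have := two_X_le hk2 h1 h1' hX1 e1; omega
  have a2 : 2 * X2 ≤ k - 1 := by have := two_X_le hk2 h2 h2' hX2 e2; omega
  have b1 : k * (2 * X1) ≤ k * (k - 1) := by nlinarith
  have b2 : k * (2 * X2) ≤ k * (k - 1) := by nlinarith
  have c1 : k ≤ k * X1 := by nlinarith
  have c2 : k ≤ k * X2 := by nlinarith
  have p1 := prod_lt hk2 h1 h1' hX1 e1
  have p2 := prod_lt hk2 h2 h2' hX2 e2
  constructor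
  · intro hd
    have h := Int.eq_zero_of_abs_lt_dvd hd (by rw [abs_lt]; constructor <;> nlinarith)
    exact eq_of_n_eq (X1 := X1) (X2 := X2) hk2 h1 h1' h2 h2' (by linarith)
  · rintro ⟨t, ht⟩
    have hDpos : 0 < D := by nlinarith
    -- `t = 1`
    have ht0 : 0 < t := by
      by_contra hcon
      have : t ≤ 0 := by omega
      nlinarith
    have ht1 : t < 2 := by
      by_contra hcon
      have : 2 ≤ t := by omega
      nlinarith
    have ht' : t = 1 := by omega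
    subst ht'
    have hs : 2 * (k * (X1 + X2)) - 2 * (y1 + y2) = k ^ 2 + 1 := by linarith
    -- `2 (y1 + y2) + 1 = k j`
    obtain ⟨j, hj⟩ : ∃ j, j = 2 * (X1 + X2) - k := ⟨_, rfl⟩
    have hkj : 2 * (y1 + y2) + 1 = k * j := by rw [hj]; linarith
    have hj1 : 0 < j := by
      by_contra hcon
      have : j ≤ 0 := by omega
      nlinarith
    have hj3 : j < 4 := by
      by_contra hcon
      have : 4 ≤ j := by omega
      nlinarith
    have hjodd : j % 2 = 1 := by omega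
    have hj13 : j = 1 ∨ j = 3 := by omega
    rcases hj13 with hj' | hj'
    · subst hj'
      have sX : 2 * (X1 + X2) = k + 1 := by linarith
      have sy : 2 * (y1 + y2) = k - 1 := by linarith
      have hab : (k ^ 2 + 1) * ((y1 - y2) + (X1 - X2)) = 0 := by
        linear_combination (-2 : ℤ) * (e1 - e2) +
          ((y1 - y2) - k * (X1 - X2)) * sy - ((X1 - X2) + k * (y1 - y2)) * sX
      rcases mul_eq_zero.mp hab with h | h
      · nlinarith
      · omega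
    · subst hj'
      -- some `y i` is larger than `k/2`
      have sX : 2 * (X1 + X2) = k + 3 := by linarith
      have sy : 2 * (y1 + y2) = 3 * k - 1 := by linarith
      rcases le_or_gt X1 1 with q | q
      · have : X1 = 1 := by omega
        omega
      · rcases le_or_gt X2 1 with q' | q'
        · have : X2 = 1 := by omega
          omega
        · nlinarith

/-! ### Square roots of one modulo an odd number -/

/-- a prime power dividing `(a-1)(a+1)`, the prime being odd -/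
lemma pow_dvd_of {p k : ℕ} (hp : p.Prime) {a c : ℤ} (hd : ((p : ℤ) ^ k) ∣ a * c)
    (hn : ¬ (p : ℤ) ∣ c) : ((p : ℤ) ^ k) ∣ a := by
  have hc : IsCoprime ((p : ℤ) ^ k) c := by
    apply IsCoprime.pow_left
    exact (Prime.coprime_iff_not_dvd (Nat.prime_iff_prime_int.mp hp)).mpr hn
  exact hc.dvd_of_dvd_mul_right hd

/-- two square roots of `1` modulo an odd `D` which are `1` modulo the same primes agree -/
lemma sqrt_one_inj {D : ℕ} (hD : D % 2 = 1) {a b : ℤ} (ha : (D : ℤ) ∣ a ^ 2 - 1)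
    (hb : (D : ℤ) ∣ b ^ 2 - 1)
    (h : ∀ p ∈ D.primeFactors, ((p : ℤ) ∣ a - 1 ↔ (p : ℤ) ∣ b - 1)) : (D : ℤ) ∣ a - b := by
  rw [Int.natCast_dvd, Nat.dvd_iff_prime_pow_dvd_dvd]
  intro p j hp hpj
  rw [← Int.natCast_dvd]
  rcases Nat.eq_zero_or_pos j with hj | hj
  · subst hj; simp
  have hpD : p ∣ D := (dvd_pow_self p hj.ne').trans hpj
  have hD0 : D ≠ 0 := by omega
  have hmem : p ∈ D.primeFactors := Nat.mem_primeFactors.mpr ⟨hp, hpD, hD0⟩
  have hp2 : ¬ (p : ℤ) ∣ 2 := by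
    intro h2
    have h3 : p ∣ 2 := by exact_mod_cast h2
    have : p = 2 := (Nat.prime_dvd_prime_iff_eq hp Nat.prime_two).mp h3
    subst this
    omega
  have hiff := h p hmem
  have hpj' : ((p : ℤ) ^ j) ∣ (D : ℤ) := by exact_mod_cast hpj
  have ha' : ((p : ℤ) ^ j) ∣ (a - 1) * (a + 1) := by
    have := hpj'.trans ha
    rwa [show a ^ 2 - 1 = (a - 1) * (a + 1) by ring] at this
  have hb' : ((p : ℤ) ^ j) ∣ (b - 1) * (b + 1) := by
    have := hpj'.trans hb
    rwa [show b ^ 2 - 1 = (b - 1) * (b + 1) by ring] at this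
  push_cast
  by_cases hc : (p : ℤ) ∣ a - 1
  · have hc' := hiff.mp hc
    have na : ¬ (p : ℤ) ∣ a + 1 := fun q => hp2 (by
      have := dvd_sub q hc
      rwa [show a + 1 - (a - 1) = 2 by ring] at this)
    have nb : ¬ (p : ℤ) ∣ b + 1 := fun q => hp2 (by
      have := dvd_sub q hc'
      rwa [show b + 1 - (b - 1) = 2 by ring] at this)
    have r1 := pow_dvd_of hp ha' na
    have r2 := pow_dvd_of hp hb' nb
    have := dvd_sub r1 r2
    rwa [show a - 1 - (b - 1) = a - b by ring] at this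
  · have hc' : ¬ (p : ℤ) ∣ b - 1 := fun q => hc (hiff.mpr q)
    rw [mul_comm] at ha' hb'
    have r1 := pow_dvd_of hp ha' hc
    have r2 := pow_dvd_of hp hb' hc'
    have := dvd_sub r1 r2
    rwa [show a + 1 - (b + 1) = a - b by ring] at this

/-! ### The exceptional values of `y` -/

/-- The `y` with `1 ≤ y ≤ k - 1` for which `(k²+1) y² + k²` is a square. -/
def ySet (k : ℕ) : Finset ℕ :=
  (Finset.Icc 1 (k - 1)).filter (fun y => IsSquare ((k ^ 2 + 1) * y ^ 2 + k ^ 2))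

/-- the `x` belonging to `y` -/
def xOf (k y : ℕ) : ℕ := Nat.sqrt ((k ^ 2 + 1) * y ^ 2 + k ^ 2)

lemma xOf_sq {k y : ℕ} (h : y ∈ ySet k) :
    ((xOf k y : ℕ) : ℤ) ^ 2 = ((k : ℤ) ^ 2 + 1) * (y : ℤ) ^ 2 + (k : ℤ) ^ 2 := by
  rw [ySet, Finset.mem_filter] at h
  obtain ⟨r, hr⟩ := h.2
  have : xOf k y = r := by rw [xOf, hr, Nat.sqrt_eq]
  rw [this]
  have h2 : (r : ℤ) * r = ((k : ℤ) ^ 2 + 1) * (y : ℤ) ^ 2 + (k : ℤ) ^ 2 := by exact_mod_cast hr.symm
  rw [← h2]; ring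

/-- `X = x - k y` -/
def XOf (k y : ℕ) : ℤ := (xOf k y : ℤ) - k * y

lemma XOf_spec {k y : ℕ} (h : y ∈ ySet k) :
    (k : ℤ) ^ 2 + (y : ℤ) ^ 2 - XOf k y ^ 2 = 2 * k * (XOf k y * y) := by
  have := xOf_sq h
  rw [XOf]
  linear_combination -this

lemma XOf_pos {k y : ℕ} (hk : 2 ≤ k) (h : y ∈ ySet k) : 1 ≤ XOf k y := by
  have h1 := xOf_sq h
  rw [XOf]
  have h2 : (0 : ℤ) ≤ xOf k y := by positivity
  have h3 : (0 : ℤ) ≤ (k : ℤ) * y := by positivity
  have h4 : (k : ℤ) * y < xOf k y := by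
    apply lt_of_pow_lt_pow_left₀ 2 h2
    rw [h1]
    have : (2 : ℤ) ≤ k := by exact_mod_cast hk
    nlinarith
  linarith

/-- the square root of one -/
def nOf (k y : ℕ) : ℤ := k * XOf k y - y

lemma nOf_sq {k y : ℕ} (h : y ∈ ySet k) : ((k : ℤ) ^ 2 + 1) ∣ (nOf k y) ^ 2 - 1 :=
  ⟨(XOf k y) ^ 2 - 1, by rw [nOf]; exact key_id (XOf_spec h)⟩

/-- The odd part of `k² + 1`. -/
def oddPart (k : ℕ) : ℕ := if k % 2 = 0 then k ^ 2 + 1 else (k ^ 2 + 1) / 2

lemma oddPart_odd (k : ℕ) : oddPart k % 2 = 1 := by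
  rw [oddPart]
  split_ifs with h
  · have : k ^ 2 % 2 = 0 := by rw [Nat.pow_mod, h]
    omega
  · have h1 : k % 2 = 1 := by omega
    obtain ⟨m, hm⟩ : ∃ m, k = 2 * m + 1 := ⟨k / 2, by omega⟩
    have : k ^ 2 + 1 = 2 * (2 * (m * (m + 1)) + 1) := by rw [hm]; ring
    rw [this, Nat.mul_div_cancel_left _ (by norm_num)]
    omega

lemma two_oddPart {k : ℕ} (h : k % 2 = 1) : 2 * oddPart k = k ^ 2 + 1 := by
  rw [oddPart, if_neg (by omega)]
  obtain ⟨m, hm⟩ : ∃ m, k = 2 * m + 1 := ⟨k / 2, by omega⟩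
  have : k ^ 2 + 1 = 2 * (2 * (m * (m + 1)) + 1) := by rw [hm]; ring
  omega

lemma oddPart_dvd (k : ℕ) : oddPart k ∣ k ^ 2 + 1 := by
  rcases Nat.mod_two_eq_zero_or_one k with h | h
  · rw [oddPart, if_pos h]
  · exact ⟨2, by rw [← two_oddPart h]; ring⟩

lemma oddPart_primeFactors (k : ℕ) : (oddPart k).primeFactors ⊆ oddPrimes k := by
  intro p hp
  rw [Nat.mem_primeFactors] at hp
  rw [oddPrimes, Finset.mem_erase, Nat.mem_primeFactors]
  refine ⟨?_, hp.1, hp.2.1.trans (oddPart_dvd k), by positivity⟩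
  rintro rfl
  have := oddPart_odd k
  have := hp.2.1
  omega

/-- the two facts, for the odd part of `k²+1` -/
lemma core {k y1 y2 : ℕ} (hk : 2 ≤ k) (h1 : y1 ∈ ySet k) (h2 : y2 ∈ ySet k) :
    ((oddPart k : ℤ) ∣ nOf k y1 - nOf k y2 → y1 = y2) ∧
      ¬ (oddPart k : ℤ) ∣ nOf k y1 + nOf k y2 := by
  have hy1 := (Finset.mem_Icc.mp (Finset.mem_filter.mp h1).1)
  have hy2 := (Finset.mem_Icc.mp (Finset.mem_filter.mp h2).1)
  have a1 : (1 : ℤ) ≤ y1 := by exact_mod_cast hy1.1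
  have a2 : (1 : ℤ) ≤ y2 := by exact_mod_cast hy2.1
  have b1 : (y1 : ℤ) ≤ k - 1 := by omega
  have b2 : (y2 : ℤ) ≤ k - 1 := by omega
  have hk' : (2 : ℤ) ≤ k := by exact_mod_cast hk
  have X1 := XOf_pos hk h1
  have X2 := XOf_pos hk h2
  have e1 := XOf_spec h1
  have e2 := XOf_spec h2
  rcases Nat.mod_two_eq_zero_or_one k with h | h
  · have := core_even hk' a1 b1 X1 e1 a2 b2 X2 e2
    have hc : (oddPart k : ℤ) = (k : ℤ) ^ 2 + 1 := by
      rw [oddPart, if_pos h]; push_cast; ring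
    rw [hc]
    refine ⟨fun hd => ?_, this.2⟩
    exact_mod_cast this.1 hd
  · have hc : 2 * (oddPart k : ℤ) = (k : ℤ) ^ 2 + 1 := by exact_mod_cast two_oddPart h
    have := core_odd (by omega) (by omega) hc a1 b1 X1 e1 a2 b2 X2 e2
    refine ⟨fun hd => ?_, this.2⟩
    exact_mod_cast this.1 hd

/-- the set of primes attached to `(y, sign)` -/
def primesOf (k : ℕ) (s : ℕ × Bool) : Finset ℕ :=
  (oddPart k).primeFactors.filter
    (fun p => (p : ℤ) ∣ (if s.2 then nOf k s.1 else - nOf k s.1) - 1)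

lemma two_mul_card_le {k : ℕ} (hk : 2 ≤ k) :
    2 * (ySet k).card ≤ 2 ^ (oddPrimes k).card := by
  have hinj : Set.InjOn (primesOf k) ((ySet k ×ˢ (Finset.univ : Finset Bool)) : Finset (ℕ × Bool)) := by
    rintro ⟨y1, s1⟩ h1 ⟨y2, s2⟩ h2 heq
    have m1 : y1 ∈ ySet k := by simpa using h1
    have m2 : y2 ∈ ySet k := by simpa using h2
    have hD := oddPart_odd k
    have key : ∀ y ∈ ySet k, ∀ s : Bool,
        (oddPart k : ℤ) ∣ (if s then nOf k y else - nOf k y) ^ 2 - 1 := by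
      intro y hy s
      have h3 : (oddPart k : ℤ) ∣ (k : ℤ) ^ 2 + 1 := by exact_mod_cast oddPart_dvd k
      have h4 := h3.trans (nOf_sq hy)
      cases s
      · simpa using h4
      · simpa using h4
    have hd := sqrt_one_inj hD (key y1 m1 s1) (key y2 m2 s2) (by
      intro p hp
      have := Finset.ext_iff.mp heq p
      simp only [primesOf, Finset.mem_filter, hp, true_and] at this
      exact this)
    have c12 := core hk m1 m2
    have c21 := core hk m2 m1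
    cases s1 <;> cases s2
    · simp only [Bool.false_eq_true, if_false] at hd
      have : y2 = y1 := c21.1 (by
        rwa [show -nOf k y1 - -nOf k y2 = nOf k y2 - nOf k y1 by ring] at hd)
      rw [this]
    · simp only [Bool.false_eq_true, if_false, if_true] at hd
      exact absurd (by
        have := (dvd_neg (α := ℤ)).mpr hd
        rwa [show -(-nOf k y1 - nOf k y2) = nOf k y1 + nOf k y2 by ring] at this) c12.2
    · simp only [Bool.false_eq_true, if_false, if_true] at hd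
      exact absurd (by
        rwa [show nOf k y1 - -nOf k y2 = nOf k y1 + nOf k y2 by ring] at hd) c12.2
    · simp only [if_true] at hd
      have : y1 = y2 := c12.1 hd
      rw [this]
  have hmaps : ∀ s ∈ (ySet k ×ˢ (Finset.univ : Finset Bool)),
      primesOf k s ∈ (oddPrimes k).powerset := by
    intro s _
    rw [Finset.mem_powerset]
    exact (Finset.filter_subset _ _).trans (oddPart_primeFactors k)
  have := Finset.card_le_card_of_injOn _ hmaps hinj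
  rw [Finset.card_product, Finset.card_powerset] at this
  simpa [mul_comm] using this

lemma one_le_card {k : ℕ} (hk : 2 ≤ k) : 1 ≤ (ySet k).card := by
  apply Finset.card_pos.mpr
  refine ⟨k - 1, ?_⟩
  rw [ySet, Finset.mem_filter, Finset.mem_Icc]
  refine ⟨⟨by omega, le_refl _⟩, ?_⟩
  obtain ⟨m, rfl⟩ : ∃ m, k = m + 2 := ⟨k - 2, by omega⟩
  refine ⟨(m + 2) ^ 2 - (m + 2) + 1, ?_⟩
  have h1 : (m + 2) ^ 2 - (m + 2) = (m + 2) * (m + 1) := by
    rw [Nat.sub_eq_iff_eq_add (by nlinarith)]; ring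
  have h2 : m + 2 - 1 = m + 1 := by omega
  rw [h1, h2]
  ring

end Pool.Agent.Lib.MP_b40da5_nt
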