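import Mathlib
import Pool.Agent.Lib.MP_b40da5_nt.Core

set_option autoImplicit false

namespace Pool.Agent.Lib.MP_b40da5_nt

/-- Normalised solutions. -/
def Norm (k : ℕ) (p : Sol k) : Prop :=
  0 ≤ p.1.2 ∧ p.1.2 < k ∧ (p.1.2 = 0 → 0 ≤ p.1.1)

lemma sol_eq {k : ℕ} (p : Sol k) :
    p.1.1 ^ 2 = ((k : ℤ) ^ 2 + 1) * p.1.2 ^ 2 + (k : ℤ) ^ 2 := by
  have := p.2
  linarith

lemma x_ne {k : ℕ} (hk : 2 ≤ k) (p : Sol k) : p.1.1 ≠ 0 := by
  intro h
  have h1 := sol_eq p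
  rw [h] at h1
  have : (2 : ℤ) ≤ k := by exact_mod_cast hk
  nlinarith [sq_nonneg ((k : ℤ) * p.1.2), sq_nonneg (p.1.2)]

/-- one descent step -/
lemma step {k : ℕ} (hk : 2 ≤ k) (p : Sol k) (hy : (k : ℤ) ≤ p.1.2) :
    ∃ q : Sol k, Assoc k p q ∧ |q.1.2| < |p.1.2| := by
  have hk' : (2 : ℤ) ≤ k := by exact_mod_cast hk
  obtain ⟨s, hs, hs1, hx⟩ : ∃ s : ℤ, s ^ 2 = 1 ∧ (s = 1 ∨ s = -1) ∧ 0 < s * p.1.1 := by
    rcases lt_or_gt_of_ne (x_ne hk p) with h | h
    · exact ⟨-1, by norm_num, Or.inr rfl, by linarith⟩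
    · exact ⟨1, by norm_num, Or.inl rfl, by linarith⟩
  have he := sol_eq p
  obtain ⟨x, hxx⟩ : ∃ x, x = s * p.1.1 := ⟨_, rfl⟩
  have hx2 : x ^ 2 = ((k : ℤ) ^ 2 + 1) * p.1.2 ^ 2 + (k : ℤ) ^ 2 := by
    rw [hxx, mul_pow, hs, one_mul, he]
  have hxpos : 0 < x := by rw [hxx]; exact hx
  have hy0 : 0 < p.1.2 := by linarith
  refine ⟨⟨(p.1.1 * (2 * (k : ℤ) ^ 2 + 1) + ((k : ℤ) ^ 2 + 1) * (p.1.2 * (-(2 * k * s))),
    p.1.1 * (-(2 * k * s)) + p.1.2 * (2 * (k : ℤ) ^ 2 + 1)), ?_⟩,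
    ⟨2 * (k : ℤ) ^ 2 + 1, -(2 * k * s), ?_, rfl, rfl⟩, ?_⟩
  · simp only
    linear_combination (1 : ℤ) * he + (-4 * (k : ℤ) ^ 2 * ((k : ℤ) ^ 2 + 1) * (p.1.1 ^ 2 - ((k : ℤ) ^ 2 + 1) * p.1.2 ^ 2)) * hs
  · linear_combination (-4 * (k : ℤ) ^ 2 * ((k : ℤ) ^ 2 + 1)) * hs
  · simp only
    have hval : p.1.1 * (-(2 * k * s)) + p.1.2 * (2 * (k : ℤ) ^ 2 + 1)
        = p.1.2 * (2 * (k : ℤ) ^ 2 + 1) - 2 * k * x := by rw [hxx]; ring
    rw [hval, abs_of_pos hy0, abs_lt]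
    constructor
    · -- k x < (k²+1) y
      have : (k : ℤ) * x < ((k : ℤ) ^ 2 + 1) * p.1.2 := by
        apply lt_of_pow_lt_pow_left₀ 2 (by positivity)
        have e1 : ((k : ℤ) * x) ^ 2 = (k : ℤ) ^ 2 * (((k : ℤ) ^ 2 + 1) * p.1.2 ^ 2 + (k : ℤ) ^ 2) := by
          rw [mul_pow, hx2]
        rw [e1]
        have e2 : (k : ℤ) ^ 2 ≤ p.1.2 ^ 2 := pow_le_pow_left₀ (by positivity) hy 2
        nlinarith [sq_nonneg ((k : ℤ))]
      nlinarith
    · have : (k : ℤ) * p.1.2 < x := by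
        apply lt_of_pow_lt_pow_left₀ 2 hxpos.le
        rw [hx2]
        nlinarith
      nlinarith

/-- negation -/
lemma neg_assoc {k : ℕ} (p : Sol k) :
    ∃ q : Sol k, Assoc k p q ∧ q.1.1 = -p.1.1 ∧ q.1.2 = -p.1.2 :=
  ⟨⟨(-p.1.1, -p.1.2), by
    have := p.2
    simp only
    linear_combination this⟩, ⟨-1, 0, by ring, by simp, by simp⟩, rfl, rfl⟩

lemma exists_norm {k : ℕ} (hk : 2 ≤ k) (n : ℕ) :
    ∀ p : Sol k, p.1.2.natAbs ≤ n → ∃ q : Sol k, Assoc k p q ∧ Norm k q := by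
  induction n using Nat.strong_induction_on with
  | _ n ih =>
    -- the nonnegative case
    have main : ∀ p : Sol k, p.1.2.natAbs ≤ n → 0 ≤ p.1.2 →
        ∃ q : Sol k, Assoc k p q ∧ Norm k q := by
      intro p hp h0
      rcases le_or_gt (k : ℤ) p.1.2 with h | h
      · obtain ⟨q, hq, hlt⟩ := step hk p h
        have hlt' : q.1.2.natAbs < p.1.2.natAbs := by
          zify
          exact hlt
        obtain ⟨r, hr, hr'⟩ := ih q.1.2.natAbs (lt_of_lt_of_le hlt' hp) q le_rfl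
        exact ⟨r, (assoc_equivalence k).trans hq hr, hr'⟩
      · by_cases hz : p.1.2 = 0
        · rcases le_or_gt 0 p.1.1 with hx | hx
          · exact ⟨p, (assoc_equivalence k).refl p, h0, h, fun _ => hx⟩
          · obtain ⟨q, hq, h1, h2⟩ := neg_assoc p
            refine ⟨q, hq, ?_, ?_, fun _ => ?_⟩
            · rw [h2, hz]; simp
            · rw [h2, hz]; simp; omega
            · rw [h1]; linarith
        · exact ⟨p, (assoc_equivalence k).refl p, h0, h, fun h => absurd h hz⟩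
    intro p hp
    rcases le_or_gt 0 p.1.2 with h | h
    · exact main p hp h
    · obtain ⟨q, hq, h1, h2⟩ := neg_assoc p
      obtain ⟨r, hr, hr'⟩ := main q (by rw [h2, Int.natAbs_neg]; exact hp) (by rw [h2]; linarith)
      exact ⟨r, (assoc_equivalence k).trans hq hr, hr'⟩

lemma abs_x_le {k : ℕ} (hk : 2 ≤ k) (p : Sol k) (h : Norm k p) :
    |p.1.1| ≤ (k : ℤ) ^ 2 - k + 1 := by
  have hk' : (2 : ℤ) ≤ k := by exact_mod_cast hk
  have h1 := sol_eq p
  have h2 : p.1.2 ^ 2 ≤ ((k : ℤ) - 1) ^ 2 := by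
    apply pow_le_pow_left₀ h.1
    have := h.2.1
    omega
  apply abs_le_of_sq_le_sq _ (by nlinarith)
  rw [h1]
  nlinarith [sq_nonneg (k : ℤ)]

/-- no small `v` -/
lemma v_zero {k : ℕ} (hk : 2 ≤ k) {u v : ℤ} (h : u ^ 2 - ((k : ℤ) ^ 2 + 1) * v ^ 2 = 1)
    (hv : |v| < 2 * k) : v = 0 := by
  have hk' : (2 : ℤ) ≤ k := by exact_mod_cast hk
  by_contra hne
  have hv1 : 1 ≤ |v| := Int.one_le_abs hne
  obtain ⟨w, hw⟩ : ∃ w, w = |v| := ⟨_, rfl⟩
  obtain ⟨t, ht⟩ : ∃ t, t = |u| := ⟨_, rfl⟩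
  have hw2 : w ^ 2 = v ^ 2 := by rw [hw, sq_abs]
  have ht2 : t ^ 2 = u ^ 2 := by rw [ht, sq_abs]
  have ht0 : 0 ≤ t := by rw [ht]; exact abs_nonneg u
  rw [← hw] at hv hv1
  have e : t ^ 2 = ((k : ℤ) ^ 2 + 1) * w ^ 2 + 1 := by rw [ht2, hw2]; linarith
  have l1 : (k : ℤ) * w < t := by
    apply lt_of_pow_lt_pow_left₀ 2 ht0
    rw [e]; nlinarith
  have l2 : t < (k : ℤ) * w + 1 := by
    apply lt_of_pow_lt_pow_left₀ 2 (by positivity)
    rw [e]; nlinarith
  omega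

lemma norm_unique {k : ℕ} (hk : 2 ≤ k) (p q : Sol k) (hp : Norm k p) (hq : Norm k q)
    (h : Assoc k p q) : p = q := by
  have hk' : (2 : ℤ) ≤ k := by exact_mod_cast hk
  obtain ⟨u, v, huv, h1, h2⟩ := h
  have hdet : (k : ℤ) ^ 2 * v = p.1.1 * q.1.2 - q.1.1 * p.1.2 := by
    rw [h1, h2]
    have := p.2
    linear_combination (-v) * this
  have ax := abs_x_le hk p hp
  have aq := abs_x_le hk q hq
  have hp1 := hp.2.1
  have hq1 := hq.2.1
  have hp0 := hp.1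
  have hq0 := hq.1
  have hv : |v| < 2 * k := by
    have hb : (k : ℤ) ^ 2 * |v| ≤ 2 * (((k : ℤ) ^ 2 - k + 1) * (k - 1)) := by
      have e1 : (k : ℤ) ^ 2 * |v| = |p.1.1 * q.1.2 - q.1.1 * p.1.2| := by
        rw [← hdet, abs_mul, abs_of_nonneg (by positivity : (0 : ℤ) ≤ (k : ℤ) ^ 2)]
      rw [e1]
      have e2 : |p.1.1 * q.1.2| ≤ ((k : ℤ) ^ 2 - k + 1) * (k - 1) := by
        rw [abs_mul, abs_of_nonneg hq0]
        exact mul_le_mul ax (by omega) hq0 (by nlinarith)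
      have e3 : |q.1.1 * p.1.2| ≤ ((k : ℤ) ^ 2 - k + 1) * (k - 1) := by
        rw [abs_mul, abs_of_nonneg hp0]
        exact mul_le_mul aq (by omega) hp0 (by nlinarith)
      have e4 := abs_sub (p.1.1 * q.1.2) (q.1.1 * p.1.2)
      linarith
    by_contra hcon
    have h3 : 2 * (k : ℤ) ≤ |v| := by omega
    have h4 : (k : ℤ) ^ 2 * (2 * k) ≤ (k : ℤ) ^ 2 * |v| :=
      mul_le_mul_of_nonneg_left h3 (by positivity)
    nlinarith
  have hv0 := v_zero hk huv hv
  subst hv0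
  have hu : u ^ 2 = 1 := by linarith
  have hu' : u = 1 ∨ u = -1 := by
    have h5 : (u - 1) * (u + 1) = 0 := by linear_combination hu
    rcases mul_eq_zero.mp h5 with h6 | h6
    · left; omega
    · right; omega
  rcases hu' with rfl | rfl
  · apply Subtype.ext
    apply Prod.ext
    · rw [h1]; ring
    · rw [h2]; ring
  · exfalso
    have hy : q.1.2 = -p.1.2 := by rw [h2]; ring
    have hx : q.1.1 = -p.1.1 := by rw [h1]; ring
    have hp2 : p.1.2 = 0 := by omega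
    have hq2 : q.1.2 = 0 := by omega
    have := hp.2.2 hp2
    have := hq.2.2 hq2
    exact x_ne hk p (by omega)

lemma numClasses_eq {k : ℕ} (hk : 2 ≤ k) : numClasses k = Nat.card {p : Sol k // Norm k p} := by
  symm
  apply Nat.card_congr
  apply Equiv.ofBijective (fun p : {p : Sol k // Norm k p} => (Quotient.mk (classSetoid k) p.1))
  constructor
  · intro p q h
    apply Subtype.ext
    exact norm_unique hk p.1 q.1 p.2 q.2 (Quotient.exact h)
  · intro c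
    induction c using Quotient.inductionOn with
    | _ p =>
      obtain ⟨q, hq, hn⟩ := exists_norm hk _ p le_rfl
      exact ⟨⟨q, hn⟩, (Quotient.sound hq).symm⟩

/-- the normalised solutions, listed -/
def listed (k : ℕ) (hk : 2 ≤ k) : Option (ySet k × Bool) → {p : Sol k // Norm k p}
  | none => ⟨⟨((k : ℤ), 0), by simp⟩, le_refl _, by simp; omega, fun _ => by simp⟩
  | some (y, b) => ⟨⟨((if b then (xOf k y : ℤ) else -(xOf k y : ℤ)), (y : ℤ)), by
        have := xOf_sq y.2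
        cases b <;> simp only [Bool.false_eq_true, if_false, if_true] <;> linarith⟩, by
      have hy := (Finset.mem_Icc.mp (Finset.mem_filter.mp y.2).1)
      refine ⟨by simp, ?_, ?_⟩
      · show ((y : ℕ) : ℤ) < k
        have : (y : ℕ) < k := by omega
        exact_mod_cast this
      · intro h
        have h' : ((y : ℕ) : ℤ) = 0 := h
        have : (y : ℕ) = 0 := by exact_mod_cast h'
        omega⟩

lemma xOf_pos {k y : ℕ} (hk : 2 ≤ k) : 0 < xOf k y := by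
  rw [xOf]
  apply Nat.sqrt_pos.mpr
  positivity

lemma listed_bij {k : ℕ} (hk : 2 ≤ k) : Function.Bijective (listed k hk) := by
  constructor
  · intro s t h
    rcases s with _ | ⟨⟨y, hy⟩, b⟩ <;> rcases t with _ | ⟨⟨z, hz⟩, c⟩
    · rfl
    · exfalso
      have h1 : (0 : ℤ) = (z : ℤ) := congrArg (fun p => p.1.1.2) h
      have hz' := (Finset.mem_Icc.mp (Finset.mem_filter.mp hz).1)
      omega
    · exfalso
      have h1 : (y : ℤ) = (0 : ℤ) := congrArg (fun p => p.1.1.2) h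
      have hy' := (Finset.mem_Icc.mp (Finset.mem_filter.mp hy).1)
      omega
    · have h1 : (y : ℤ) = (z : ℤ) := congrArg (fun p => p.1.1.2) h
      have hyz : y = z := by exact_mod_cast h1
      subst hyz
      have h2 : (if b then (xOf k y : ℤ) else -(xOf k y : ℤ))
          = (if c then (xOf k y : ℤ) else -(xOf k y : ℤ)) := congrArg (fun p => p.1.1.1) h
      have hpos := xOf_pos (y := y) hk
      cases b <;> cases c <;> simp at h2 ⊢ <;> omega
  · rintro ⟨⟨⟨x, y⟩, hp⟩, hn⟩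
    have hk' : (2 : ℤ) ≤ k := by exact_mod_cast hk
    obtain ⟨h0, h1, h2⟩ := hn
    simp only at h0 h1 h2
    have hp' : x ^ 2 = ((k : ℤ) ^ 2 + 1) * y ^ 2 + (k : ℤ) ^ 2 := by
      have : x ^ 2 - ((k : ℤ) ^ 2 + 1) * y ^ 2 = (k : ℤ) ^ 2 := hp
      linarith
    rcases eq_or_lt_of_le h0 with h | h
    · subst h
      refine ⟨none, ?_⟩
      apply Subtype.ext
      apply Subtype.ext
      have hx : x = k := by
        have := h2 rfl
        have h3 : x ^ 2 = (k : ℤ) ^ 2 := by rw [hp']; ring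
        exact (pow_left_inj₀ this (by positivity) (by norm_num)).mp h3
      subst hx
      rfl
    · obtain ⟨z, rfl⟩ : ∃ z : ℕ, y = (z : ℤ) := ⟨y.toNat, by omega⟩
      have hsq : ((k : ℕ) ^ 2 + 1) * z ^ 2 + k ^ 2 = x.natAbs * x.natAbs := by
        zify
        rw [← abs_mul, abs_mul_self]
        linarith
      have hz : z ∈ ySet k := by
        rw [ySet, Finset.mem_filter, Finset.mem_Icc]
        exact ⟨⟨by omega, by omega⟩, ⟨x.natAbs, hsq⟩⟩
      have hxo : xOf k z = x.natAbs := by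
        rw [xOf, hsq, Nat.sqrt_eq]
      rcases le_or_gt 0 x with hx | hx
      · refine ⟨some (⟨z, hz⟩, true), ?_⟩
        apply Subtype.ext
        apply Subtype.ext
        apply Prod.ext
        · show (xOf k z : ℤ) = x
          rw [hxo]; omega
        · rfl
      · refine ⟨some (⟨z, hz⟩, false), ?_⟩
        apply Subtype.ext
        apply Subtype.ext
        apply Prod.ext
        · show -(xOf k z : ℤ) = x
          rw [hxo]; omega
        · rfl

lemma numClasses_eq' {k : ℕ} (hk : 2 ≤ k) : numClasses k = 2 * (ySet k).card + 1 := by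
  rw [numClasses_eq hk, ← Nat.card_congr (Equiv.ofBijective _ (listed_bij hk)),
    Nat.card_eq_fintype_card, Fintype.card_option, Fintype.card_prod, Fintype.card_bool,
    Fintype.card_coe]
  ring

theorem main (k : ℕ) (hk : 2 ≤ k) :
    (∃ g : ℕ, 1 ≤ g ∧ 2 * g ≤ 2 ^ (oddPrimes k).card ∧ numClasses k = 2 * g + 1) ∧
    ((oddPrimes k).card ≤ 2 → numClasses k = 3 ∨ numClasses k = 5) := by
  have h1 := numClasses_eq' hk
  have h2 := two_mul_card_le hk
  have h3 := one_le_card hk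
  refine ⟨⟨(ySet k).card, h3, h2, h1⟩, fun h => ?_⟩
  have h4 : 2 ^ (oddPrimes k).card ≤ 2 ^ 2 := Nat.pow_le_pow_right (by norm_num) h
  omega

end Pool.Agent.Lib.MP_b40da5_nt
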